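import Pool.Agent.G02.StmtsS

/-!
# Squad G02, CLB: the twisting factor
-/

set_option autoImplicit false

namespace Pool.Agent.G02.H53

open Polynomial Pool.Agent.NJ Pool.Agent.GT.F

noncomputable section

/-! ### Multiplicities -/

/-- The multiplicity at the complex number `t`. -/
def mu (t : ℂ) (p : ℚ[X]) : ℕ := (p.map (algebraMap ℚ ℂ)).rootMultiplicity t

theorem map_ne {p : ℚ[X]} (hp : p ≠ 0) : p.map (algebraMap ℚ ℂ) ≠ 0 :=
  (Polynomial.map_ne_zero_iff (algebraMap ℚ ℂ).injective).2 hp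

theorem mu_mul (t : ℂ) {p q : ℚ[X]} (hp : p ≠ 0) (hq : q ≠ 0) :
    mu t (p * q) = mu t p + mu t q := by
  unfold mu
  rw [Polynomial.map_mul, Polynomial.rootMultiplicity_mul (mul_ne_zero (map_ne hp) (map_ne hq))]

theorem mu_C (t : ℂ) (c : ℚ) : mu t (C c) = 0 := by
  unfold mu
  rw [Polynomial.map_C, Polynomial.rootMultiplicity_C]

theorem mu_one (t : ℂ) : mu t 1 = 0 := by
  rw [← C_1]
  exact mu_C t 1

open Classical in
theorem mu_lin (t : ℂ) (r : ℚ) : mu t (X - C r) = if t = (r : ℂ) then 1 else 0 := by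
  unfold mu
  rw [Polynomial.map_sub, Polynomial.map_X, Polynomial.map_C, Polynomial.rootMultiplicity_X_sub_C]
  rfl

theorem prod_ne (S : Finset ℚ) : (∏ r ∈ S, (X - C r) : ℚ[X]) ≠ 0 :=
  Finset.prod_ne_zero_iff.2 fun r _ => X_sub_C_ne_zero r

open Classical in
theorem mu_prod (t : ℂ) (S : Finset ℚ) :
    mu t (∏ r ∈ S, (X - C r)) = if ∃ r ∈ S, t = (r : ℂ) then 1 else 0 := by
  induction S using Finset.induction_on with
  | empty => simp [mu_one]
  | insert a S ha ih =>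
    rw [Finset.prod_insert ha, mu_mul t (X_sub_C_ne_zero a) (prod_ne S), ih, mu_lin]
    by_cases h : t = (a : ℂ)
    · rw [if_pos h, if_neg, if_pos ⟨a, Finset.mem_insert_self a S, h⟩]
      rintro ⟨r, hr, h2⟩
      rw [h] at h2
      have h3 : a = r := by exact_mod_cast h2
      exact ha (h3 ▸ hr)
    · rw [if_neg h, zero_add]
      by_cases h2 : ∃ r ∈ S, t = (r : ℂ)
      · obtain ⟨r, hr, h3⟩ := h2
        rw [if_pos ⟨r, hr, h3⟩, if_pos ⟨r, Finset.mem_insert_of_mem hr, h3⟩]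
      · rw [if_neg h2, if_neg]
        rintro ⟨r, hr, h3⟩
        rcases Finset.mem_insert.1 hr with h4 | h4
        · exact h (h4 ▸ h3)
        · exact h2 ⟨r, h4, h3⟩

/-- A form of degree at most one. -/
structure Frm (p : ℚ[X]) (S : Finset ℚ) (c : ℚ) : Prop where
  card : S.card = p.natDegree
  c0 : c ≠ 0
  eq : p = C c * ∏ r ∈ S, (X - C r)

theorem frm {p : ℚ[X]} (hp : p ≠ 0) (hd : p.natDegree ≤ 1) : ∃ S c, Frm p S c := by
  rcases Nat.le_one_iff_eq_zero_or_eq_one.1 hd with h | h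
  · obtain ⟨c, hc⟩ := natDegree_eq_zero.1 h
    refine ⟨∅, c, by rw [h, Finset.card_empty], ?_, by rw [Finset.prod_empty, mul_one, hc]⟩
    rintro rfl
    rw [map_zero] at hc
    exact hp hc.symm
  · have h1 := eq_X_add_C_of_natDegree_le_one hd
    have h2 : p.coeff 1 ≠ 0 := by
      rw [← h]
      exact leadingCoeff_ne_zero.2 hp
    refine ⟨{-(p.coeff 0) / p.coeff 1}, p.coeff 1, by rw [h, Finset.card_singleton], h2, ?_⟩
    rw [Finset.prod_singleton, mul_sub, ← C_mul]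
    have h3 : p.coeff 1 * (-p.coeff 0 / p.coeff 1) = - p.coeff 0 := by
      field_simp
    rw [h3, C_neg, sub_neg_eq_add]
    exact h1

open Classical in
theorem Frm.mu {p : ℚ[X]} {S : Finset ℚ} {c : ℚ} (h : Frm p S c) (t : ℂ) :
    mu t p = if ∃ r ∈ S, t = (r : ℂ) then 1 else 0 := by
  rw [h.eq, mu_mul t (C_ne_zero.2 h.c0) (prod_ne S), mu_C, zero_add, mu_prod]

theorem Frm.mu1 {p : ℚ[X]} {S : Finset ℚ} {c : ℚ} (h : Frm p S c) {r : ℚ} (hr : r ∈ S) :
    H53.mu (r : ℂ) p = 1 := by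
  classical
  rw [h.mu, if_pos ⟨r, hr, rfl⟩]

theorem Frm.mu0 {p : ℚ[X]} {S : Finset ℚ} {c : ℚ} (h : Frm p S c) {t : ℂ}
    (ht : ∀ r ∈ S, t ≠ (r : ℂ)) : H53.mu t p = 0 := by
  classical
  rw [h.mu, if_neg]
  rintro ⟨r, hr, h2⟩
  exact ht r hr h2

theorem Frm.ev {p : ℚ[X]} {S : Finset ℚ} {c : ℚ} (h : Frm p S c) {r : ℚ} (hr : r ∈ S) :
    p.eval r = 0 := by
  rw [h.eq, eval_mul, eval_prod, Finset.prod_eq_zero hr, mul_zero]
  rw [eval_sub, eval_X, eval_C, sub_self]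

theorem Frm.disj {p q : ℚ[X]} {S T : Finset ℚ} {c d : ℚ} (h : Frm p S c) (h2 : Frm q T d)
    (hc : IsCoprime p q) : Disjoint S T := by
  rw [Finset.disjoint_left]
  intro r hr hr2
  obtain ⟨u, v, huv⟩ := hc
  have := congrArg (eval r) huv
  rw [eval_add, eval_mul, eval_mul, h.ev hr, h2.ev hr2, eval_one] at this
  norm_num at this

/-! ### Equality up to squares and constants -/

/-- Equality up to squares and constants. -/
def Qv (f g : RatFunc ℚ) : Prop := ∃ (k : ℚ) (m : RatFunc ℚ), k ≠ 0 ∧ m ≠ 0 ∧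
  f = RatFunc.C k * m ^ 2 * g

theorem Ck {k : ℚ} (hk : k ≠ 0) : (RatFunc.C k : RatFunc ℚ) ≠ 0 :=
  (_root_.map_ne_zero RatFunc.C).2 hk

theorem Qv.refl (f : RatFunc ℚ) : Qv f f := ⟨1, 1, one_ne_zero, one_ne_zero, by simp⟩

theorem Qv.symm {f g : RatFunc ℚ} (h : Qv f g) : Qv g f := by
  obtain ⟨k, m, hk, hm, h⟩ := h
  refine ⟨k⁻¹, m⁻¹, inv_ne_zero hk, inv_ne_zero hm, ?_⟩
  have := Ck hk
  rw [h, map_inv₀]
  field_simp

theorem Qv.trans {f g h : RatFunc ℚ} (h1 : Qv f g) (h2 : Qv g h) : Qv f h := by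
  obtain ⟨k, m, hk, hm, h1⟩ := h1
  obtain ⟨k', m', hk', hm', h2⟩ := h2
  refine ⟨k * k', m * m', mul_ne_zero hk hk', mul_ne_zero hm hm', ?_⟩
  rw [h1, h2, map_mul]
  ring

theorem Qv.mul {f g f' g' : RatFunc ℚ} (h1 : Qv f g) (h2 : Qv f' g') : Qv (f * f') (g * g') := by
  obtain ⟨k, m, hk, hm, h1⟩ := h1
  obtain ⟨k', m', hk', hm', h2⟩ := h2
  refine ⟨k * k', m * m', mul_ne_zero hk hk', mul_ne_zero hm hm', ?_⟩
  rw [h1, h2, map_mul]
  ring

theorem Qv.red {f : RatFunc ℚ} (hf : f ≠ 0) (n : ℕ) : Qv (f ^ n) (f ^ (n % 2)) := by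
  refine ⟨1, f ^ (n / 2), one_ne_zero, pow_ne_zero _ hf, ?_⟩
  rw [map_one, one_mul, ← pow_mul, ← pow_add]
  congr 1
  omega

theorem Qv.even {f : RatFunc ℚ} (hf : f ≠ 0) {n : ℕ} (hn : n % 2 = 0) : Qv (f ^ n) 1 := by
  have := Qv.red hf n
  rw [hn, pow_zero] at this
  exact this

theorem Qv.odd {f : RatFunc ℚ} (hf : f ≠ 0) {n : ℕ} (hn : n % 2 = 1) : Qv (f ^ n) f := by
  have := Qv.red hf n
  rw [hn, pow_one] at this
  exact this

/-- `f g` is trivial: `f` is equivalent to `g`. -/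
theorem Qv.of_mul {f g : RatFunc ℚ} (hg : g ≠ 0) (h : Qv (f * g) 1) : Qv f g := by
  obtain ⟨k, m, hk, hm, h⟩ := h
  refine ⟨k, m * g⁻¹, hk, mul_ne_zero hm (inv_ne_zero hg), ?_⟩
  have h2 : f = f * g * g⁻¹ := by
    field_simp
  rw [h2, h]
  field_simp

theorem Qv.const {k : ℚ} (hk : k ≠ 0) : Qv (RatFunc.C k) 1 :=
  ⟨k, 1, hk, one_ne_zero, by simp⟩

/-- A part of the set of roots of a form. -/
theorem Frm.part {p : ℚ[X]} {S : Finset ℚ} {c : ℚ} (h : Frm p S c) (hd : p.natDegree ≤ 1)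
    (R : Finset ℚ) : Qv (algebraMap ℚ[X] (RatFunc ℚ) (∏ r ∈ R ∩ S, (X - C r)))
      (algebraMap ℚ[X] (RatFunc ℚ) p ^ (R ∩ S).card) := by
  have h1 : S.card ≤ 1 := h.card ▸ hd
  have h2 : R ∩ S = ∅ ∨ R ∩ S = S := by
    rcases Finset.card_le_one_iff_subset_singleton.1 h1 with ⟨s, hs⟩
    by_cases h3 : (R ∩ S) = ∅
    · exact Or.inl h3
    · right
      obtain ⟨r, hr⟩ := Finset.nonempty_iff_ne_empty.2 h3
      apply Finset.Subset.antisymm Finset.inter_subset_right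
      intro q hq
      have h4 := Finset.mem_singleton.1 (hs hq)
      have h5 := Finset.mem_singleton.1 (hs (Finset.mem_inter.1 hr).2)
      rw [h4, ← h5]
      exact hr
  rcases h2 with h2 | h2
  · rw [h2, Finset.prod_empty, Finset.card_empty, pow_zero, map_one]
    exact Qv.refl _
  · rw [h2]
    by_cases h3 : S.card = 0
    · rw [Finset.card_eq_zero.1 h3, Finset.prod_empty, Finset.card_empty, pow_zero, map_one]
      exact Qv.refl _
    · have h4 : S.card = 1 := by omega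
      rw [h4, pow_one]
      apply Qv.symm
      refine ⟨c, 1, h.c0, one_ne_zero, ?_⟩
      conv_lhs => rw [h.eq]
      rw [map_mul, one_pow, mul_one]
      rfl

theorem am_ne {p : ℚ[X]} (hp : p ≠ 0) : algebraMap ℚ[X] (RatFunc ℚ) p ≠ 0 :=
  (map_ne_zero_iff _ (IsFractionRing.injective ℚ[X] (RatFunc ℚ))).2 hp

/-! ### The bad places -/

/-- The data. -/
structure Dat (a b x y w : ℚ[X]) : Prop where
  a0 : a ≠ 0
  b0 : b ≠ 0
  d0 : a ^ 2 - 4 * b ≠ 0
  w0 : w ≠ 0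
  lin : Lin x y
  hw : w = x - 4 * y
  h1 : a ^ 2 * y = b * x
  h2 : (a ^ 2 - 4 * b) * y = b * w

theorem Dat.mu1 {a b x y w : ℚ[X]} (h : Dat a b x y w) (t : ℂ) :
    2 * mu t a + mu t y = mu t b + mu t x := by
  have := congrArg (mu t) h.h1
  rw [sq, mu_mul t (mul_ne_zero h.a0 h.a0) h.lin.y0, mu_mul t h.a0 h.a0,
    mu_mul t h.b0 h.lin.x0] at this
  omega

theorem Dat.mu2 {a b x y w : ℚ[X]} (h : Dat a b x y w) (t : ℂ) :
    mu t (a ^ 2 - 4 * b) + mu t y = mu t b + mu t w := by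
  have := congrArg (mu t) h.h2
  rw [mu_mul t h.d0 h.lin.y0, mu_mul t h.b0 h.w0] at this
  exact this

theorem Dat.dg1 {a b x y w : ℚ[X]} (h : Dat a b x y w) :
    2 * a.natDegree + y.natDegree = b.natDegree + x.natDegree := by
  have := congrArg natDegree h.h1
  rw [natDegree_mul (pow_ne_zero 2 h.a0) h.lin.y0, natDegree_pow,
    natDegree_mul h.b0 h.lin.x0] at this
  exact this

theorem Dat.dg2 {a b x y w : ℚ[X]} (h : Dat a b x y w) :
    (a ^ 2 - 4 * b).natDegree + y.natDegree = b.natDegree + w.natDegree := by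
  have := congrArg natDegree h.h2
  rw [natDegree_mul h.d0 h.lin.y0, natDegree_mul h.b0 h.w0] at this
  exact this

theorem deg4' (y : ℚ[X]) : (4 * y).natDegree = y.natDegree := by
  have : (4 : ℚ[X]) * y = C 4 * y := by
    congr 1
  rw [this]
  exact natDegree_C_mul (by norm_num)

theorem Dat.degs {a b x y w : ℚ[X]} (h : Dat a b x y w) :
    w.natDegree ≤ 1 ∧ 2 ≤ x.natDegree + y.natDegree + w.natDegree := by
  have h1 : w.natDegree ≤ max x.natDegree y.natDegree := by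
    rw [h.hw]
    refine (natDegree_sub_le _ _).trans ?_
    rw [deg4' y]
  have h2 : x.natDegree ≤ max w.natDegree y.natDegree := by
    have : x = w + 4 * y := by
      rw [h.hw]
      ring
    rw [this]
    refine (natDegree_add_le _ _).trans ?_
    rw [deg4' y]
  have h3 : y.natDegree ≤ max x.natDegree w.natDegree := by
    rw [← deg4' y]
    have : 4 * y = x - w := by
      rw [h.hw]
      ring
    rw [this]
    exact natDegree_sub_le _ _
  have h4 := h.lin.dx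
  have h5 := h.lin.dy
  have h6 := h.lin.nc
  have h7 : w.natDegree ≤ 1 := h1.trans (max_le h4 h5)
  refine ⟨h7, ?_⟩
  rcases le_max_iff.1 h1 with h1 | h1 <;> rcases le_max_iff.1 h2 with h2 | h2 <;>
    rcases le_max_iff.1 h3 with h3 | h3 <;> by_contra h8 <;> apply h6 <;> constructor <;> omega

/-- if the place at infinity is good, all degrees are one -/
theorem Dat.gi {a b x y w : ℚ[X]} (h : Dat a b x y w) (hg : Gi a b) :
    x.natDegree = 1 ∧ y.natDegree = 1 ∧ w.natDegree = 1 := by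
  obtain ⟨m, -, h1, h2⟩ := hg
  have h3 := h.dg1
  have h4 := h.dg2
  have h5 := h.degs
  have h6 := h.lin.dx
  have h7 := h.lin.dy
  omega

theorem Dat.cxw {a b x y w : ℚ[X]} (h : Dat a b x y w) : IsCoprime x w := by
  obtain ⟨u, v, huv⟩ := h.lin.cop
  refine ⟨u + C (1 / 4) * v, -(C (1 / 4) * v), ?_⟩
  have h4 : (C (1 / 4) * 4 : ℚ[X]) = 1 := by
    have : (4 : ℚ[X]) = C 4 := rfl
    rw [this, ← C_mul]
    norm_num
  rw [h.hw]
  linear_combination huv + v * y * h4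

theorem Dat.cyw {a b x y w : ℚ[X]} (h : Dat a b x y w) : IsCoprime y w := by
  obtain ⟨u, v, huv⟩ := h.lin.cop
  refine ⟨4 * u + v, u, ?_⟩
  rw [h.hw]
  linear_combination huv

theorem Dat.bad {a b x y w : ℚ[X]} (h : Dat a b x y w) {Sx Sy Sw : Finset ℚ}
    {cx cy cw : ℚ} (fx : Frm x Sx cx) (fy : Frm y Sy cy) (fw : Frm w Sw cw) {F : Finset ℂ}
    (hFd : F = (Sx ∪ Sy ∪ Sw).image (fun r : ℚ => (r : ℂ))) : ∀ t ∈ F, ¬ Gt a b t := by
  have dxy := fx.disj fy h.lin.cop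
  have dyw := fy.disj fw h.cyw
  intro s hs hg
  rw [hFd] at hs
  obtain ⟨r, hr, rfl⟩ := Finset.mem_image.1 hs
  obtain ⟨m, -, h1, h2⟩ := hg
  have h1' : mu (r : ℂ) b = 4 * m := h1
  have h2' : mu (r : ℂ) (a ^ 2 - 4 * b) = 4 * m := h2
  have e1 := h.mu1 (r : ℂ)
  have e2 := h.mu2 (r : ℂ)
  rcases Finset.mem_union.1 hr with hr | hr
  · rcases Finset.mem_union.1 hr with hr | hr
    · have m1 := fx.mu1 hr
      have m2 : mu (r : ℂ) y = 0 := fy.mu0 fun q hq h3 => by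
        have h4 : r = q := by exact_mod_cast h3
        exact Finset.disjoint_left.1 dxy hr (h4 ▸ hq)
      omega
    · have m1 := fy.mu1 hr
      have m2 : mu (r : ℂ) x = 0 := fx.mu0 fun q hq h3 => by
        have h4 : r = q := by exact_mod_cast h3
        exact Finset.disjoint_left.1 dxy (h4 ▸ hq) hr
      omega
  · have m1 := fw.mu1 hr
    have m2 : mu (r : ℂ) y = 0 := fy.mu0 fun q hq h3 => by
      have h4 : r = q := by exact_mod_cast h3
      exact Finset.disjoint_left.1 dyw (h4 ▸ hq) hr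
    omega

/-- `Few1`: the bad places are the roots of `x y w`. -/
theorem Dat.good {a b x y w : ℚ[X]} (h : Dat a b x y w) (hF : Few1 a b) {Sx Sy Sw : Finset ℚ}
    {cx cy cw : ℚ} (fx : Frm x Sx cx) (fy : Frm y Sy cy) (fw : Frm w Sw cw) {t : ℂ}
    (htx : ∀ r ∈ Sx, t ≠ (r : ℂ)) (hty : ∀ r ∈ Sy, t ≠ (r : ℂ)) (htw : ∀ r ∈ Sw, t ≠ (r : ℂ)) :
    Gt a b t := by
  classical
  have dxy := fx.disj fy h.lin.cop
  have dxw := fx.disj fw h.cxw
  have dyw := fy.disj fw h.cyw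
  obtain ⟨F, hFd⟩ : ∃ F : Finset ℂ, F = (Sx ∪ Sy ∪ Sw).image (fun r : ℚ => (r : ℂ)) := ⟨_, rfl⟩
  have hcard : F.card = x.natDegree + y.natDegree + w.natDegree := by
    rw [hFd, Finset.card_image_of_injective _ Rat.cast_injective,
      Finset.card_union_of_disjoint (Finset.disjoint_union_left.2 ⟨dxw, dyw⟩),
      Finset.card_union_of_disjoint dxy, fx.card, fy.card, fw.card]
  have hbad := h.bad fx fy fw hFd
  by_contra ht
  have htF : t ∉ F := by
    rw [hFd]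
    intro hs
    obtain ⟨r, hr, hrt⟩ := Finset.mem_image.1 hs
    rcases Finset.mem_union.1 hr with hr | hr
    · rcases Finset.mem_union.1 hr with hr | hr
      · exact htx r hr hrt.symm
      · exact hty r hr hrt.symm
    · exact htw r hr hrt.symm
  have hall : ∀ s ∈ insert t F, ¬ Gt a b s := by
    intro s hs
    rcases Finset.mem_insert.1 hs with hs | hs
    · rw [hs]
      exact ht
    · exact hbad s hs
  obtain ⟨k1, k2⟩ := hF.2 (insert t F) hall
  rw [Finset.card_insert_of_notMem htF, hcard] at k1 k2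
  have h5 := h.degs
  by_cases hg : Gi a b
  · have := h.gi hg
    omega
  · have := k2 hg
    omega

/-- CLB -/
theorem clb (hsq : GT.D.SqpStmt) : ClbStmt := by
  classical
  intro a b x y hb0 hd0 hF hl hxy
  have ha0 : a ≠ 0 := by
    rintro rfl
    rw [zero_pow two_ne_zero, zero_mul] at hxy
    exact mul_ne_zero hb0 hl.x0 hxy.symm
  obtain ⟨w, hw⟩ : ∃ w : ℚ[X], w = x - 4 * y := ⟨_, rfl⟩
  have h2 : (a ^ 2 - 4 * b) * y = b * w := by
    rw [hw]
    linear_combination hxy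
  have hw0 : w ≠ 0 := by
    intro h
    rw [h, mul_zero] at h2
    exact mul_ne_zero hd0 hl.y0 h2
  have h : Dat a b x y w := ⟨ha0, hb0, hd0, hw0, hl, hw, hxy, h2⟩
  obtain ⟨Sx, cx, fx⟩ := frm hl.x0 hl.dx
  obtain ⟨Sy, cy, fy⟩ := frm hl.y0 hl.dy
  obtain ⟨Sw, cw, fw⟩ := frm hw0 h.degs.1
  have dxy := fx.disj fy h.lin.cop
  have dxw := fx.disj fw h.cxw
  have dyw := fy.disj fw h.cyw
  have hgood : ∀ t : ℂ, (∀ r ∈ Sx, t ≠ (r : ℂ)) → (∀ r ∈ Sy, t ≠ (r : ℂ)) →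
      (∀ r ∈ Sw, t ≠ (r : ℂ)) → ¬ Odd (mu t (a * b)) := by
    intro t htx hty htw
    obtain ⟨m, -, h3, -⟩ := h.good hF fx fy fw htx hty htw
    have h3' : mu t b = 4 * m := h3
    have h4 := h.mu1 t
    rw [fx.mu0 htx, fy.mu0 hty] at h4
    rw [mu_mul t ha0 hb0, Nat.not_odd_iff_even]
    exact ⟨3 * m, by omega⟩
  obtain ⟨κ, s, R, hκ, hs, hab⟩ := hsq (a * b) (mul_ne_zero ha0 hb0) (by
    intro t ht
    by_contra hn
    refine hgood t (fun r _ hr => hn ⟨r, hr⟩) (fun r _ hr => hn ⟨r, hr⟩)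
      (fun r _ hr => hn ⟨r, hr⟩) ht)
  have hRsub : R ⊆ Sx ∪ Sy ∪ Sw := by
    intro c hc
    by_contra hn
    rw [Finset.mem_union, Finset.mem_union] at hn
    refine hgood (c : ℂ) (fun r hr h3 => ?_) (fun r hr h3 => ?_) (fun r hr h3 => ?_) ?_
    · have h4 : c = r := by exact_mod_cast h3
      exact hn (Or.inl (Or.inl (h4 ▸ hr)))
    · have h4 : c = r := by exact_mod_cast h3
      exact hn (Or.inl (Or.inr (h4 ▸ hr)))
    · have h4 : c = r := by exact_mod_cast h3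
      exact hn (Or.inr (h4 ▸ hr))
    · rw [hab, sq, mu_mul _ (mul_ne_zero (C_ne_zero.2 hκ) (mul_ne_zero hs hs)) (prod_ne R),
        mu_mul _ (C_ne_zero.2 hκ) (mul_ne_zero hs hs), mu_C, mu_mul _ hs hs, mu_prod,
        if_pos ⟨c, hc, rfl⟩]
      exact ⟨mu (c : ℂ) s, by ring⟩
  -- the three parts of `R`
  have hRd : R = (R ∩ Sx ∪ R ∩ Sy) ∪ R ∩ Sw := by
    rw [← Finset.inter_union_distrib_left, ← Finset.inter_union_distrib_left]
    exact (Finset.inter_eq_left.2 hRsub).symm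
  have e1 : Disjoint (R ∩ Sx) (R ∩ Sy) :=
    dxy.mono Finset.inter_subset_right Finset.inter_subset_right
  have e2 : Disjoint (R ∩ Sx ∪ R ∩ Sy) (R ∩ Sw) :=
    Finset.disjoint_union_left.2 ⟨dxw.mono Finset.inter_subset_right Finset.inter_subset_right,
      dyw.mono Finset.inter_subset_right Finset.inter_subset_right⟩
  have hRcard : R.card = (R ∩ Sx).card + (R ∩ Sy).card + (R ∩ Sw).card := by
    conv_lhs => rw [hRd]
    rw [Finset.card_union_of_disjoint e2, Finset.card_union_of_disjoint e1]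
  obtain ⟨A, hA⟩ : ∃ A, A = algebraMap ℚ[X] (RatFunc ℚ) a := ⟨_, rfl⟩
  obtain ⟨B, hB⟩ : ∃ B, B = algebraMap ℚ[X] (RatFunc ℚ) b := ⟨_, rfl⟩
  obtain ⟨x', hx'⟩ : ∃ x', x' = algebraMap ℚ[X] (RatFunc ℚ) x := ⟨_, rfl⟩
  obtain ⟨y', hy'⟩ : ∃ y', y' = algebraMap ℚ[X] (RatFunc ℚ) y := ⟨_, rfl⟩
  obtain ⟨w', hw'⟩ : ∃ w', w' = algebraMap ℚ[X] (RatFunc ℚ) w := ⟨_, rfl⟩
  have hA0 : A ≠ 0 := hA ▸ am_ne ha0
  have hB0 : B ≠ 0 := hB ▸ am_ne hb0
  have hx0 : x' ≠ 0 := hx' ▸ am_ne hl.x0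
  have hy0 : y' ≠ 0 := hy' ▸ am_ne hl.y0
  have hw0' : w' ≠ 0 := hw' ▸ am_ne hw0
  have hww : w' = x' - 4 * y' := by
    rw [hw', hw, hx', hy', map_sub, map_mul, map_ofNat]
  have hAB : A ^ 2 * y' = B * x' := by
    rw [hA, hB, hx', hy', ← map_pow, ← map_mul, ← map_mul, hxy]
  obtain ⟨l, hl'⟩ : ∃ l, l = x' / y' := ⟨_, rfl⟩
  have hlam : lam x y = l := by
    rw [hl', hx', hy']
    rfl
  have hl0 : l ≠ 0 := hl' ▸ div_ne_zero hx0 hy0
  have hxl : x' = y' * l := by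
    rw [hl']
    field_simp
  have hwl : w' = y' * (l - 4) := by
    rw [hww, hxl]
    ring
  have hl4 : l - 4 ≠ 0 := by
    intro h3
    rw [h3, mul_zero] at hwl
    exact hw0' hwl
  -- reduction to the forms
  have q1 : Qv (B / A) (algebraMap ℚ[X] (RatFunc ℚ) (a * b)) := by
    refine ⟨1, A⁻¹, one_ne_zero, inv_ne_zero hA0, ?_⟩
    rw [map_one, map_mul, ← hA, ← hB]
    field_simp
  have q2 : Qv (algebraMap ℚ[X] (RatFunc ℚ) (a * b))
      (algebraMap ℚ[X] (RatFunc ℚ) (∏ c ∈ R, (X - C c))) := by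
    refine ⟨κ, algebraMap ℚ[X] (RatFunc ℚ) s, hκ, am_ne hs, ?_⟩
    rw [hab, map_mul, map_mul, map_pow]
    rfl
  have q3 : Qv (algebraMap ℚ[X] (RatFunc ℚ) (∏ c ∈ R, (X - C c)))
      (x' ^ (R ∩ Sx).card * y' ^ (R ∩ Sy).card * w' ^ (R ∩ Sw).card) := by
    have h3 : (∏ c ∈ R, (X - C c) : ℚ[X]) = (∏ c ∈ R ∩ Sx, (X - C c)) *
        (∏ c ∈ R ∩ Sy, (X - C c)) * (∏ c ∈ R ∩ Sw, (X - C c)) := by
      conv_lhs => rw [hRd]
      rw [Finset.prod_union e2, Finset.prod_union e1]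
    rw [h3, map_mul, map_mul, hx', hy', hw']
    exact ((fx.part hl.dx R).mul (fy.part hl.dy R)).mul (fw.part h.degs.1 R)
  obtain ⟨n, hn⟩ : ∃ n, n = (R ∩ Sx).card + (R ∩ Sy).card + (R ∩ Sw).card := ⟨_, rfl⟩
  obtain ⟨i₀, hi₀⟩ : ∃ i₀, i₀ = (R ∩ Sx).card := ⟨_, rfl⟩
  obtain ⟨j₀, hj₀⟩ : ∃ j₀, j₀ = (R ∩ Sw).card := ⟨_, rfl⟩
  have q4 : Qv (B / A) (y' ^ n * l ^ i₀ * (l - 4) ^ j₀) := by
    have h3 : x' ^ (R ∩ Sx).card * y' ^ (R ∩ Sy).card * w' ^ (R ∩ Sw).card =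
        y' ^ n * l ^ i₀ * (l - 4) ^ j₀ := by
      rw [hxl, hwl, hn, hi₀, hj₀, mul_pow, mul_pow, pow_add, pow_add]
      ring
    rw [← h3]
    exact (q1.trans q2).trans q3
  -- the parity
  have hpar : n % 2 = 0 ∨ Qv y' 1 ∨ Qv y' l ∨ Qv y' (l - 4) := by
    by_cases hx1 : x.natDegree = 0
    · right; right; left
      obtain ⟨c, hc⟩ := natDegree_eq_zero.1 hx1
      apply Qv.of_mul hl0
      rw [← hxl, hx', ← hc]
      apply Qv.const
      rintro rfl
      rw [map_zero] at hc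
      exact hl.x0 hc.symm
    by_cases hy1 : y.natDegree = 0
    · right; left
      obtain ⟨c, hc⟩ := natDegree_eq_zero.1 hy1
      rw [hy', ← hc]
      apply Qv.const
      rintro rfl
      rw [map_zero] at hc
      exact hl.y0 hc.symm
    by_cases hw1 : w.natDegree = 0
    · right; right; right
      obtain ⟨c, hc⟩ := natDegree_eq_zero.1 hw1
      apply Qv.of_mul hl4
      rw [← hwl, hw', ← hc]
      apply Qv.const
      rintro rfl
      rw [map_zero] at hc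
      exact hw0 hc.symm
    left
    have hx2 : x.natDegree = 1 := by have := hl.dx; omega
    have hy2 : y.natDegree = 1 := by have := hl.dy; omega
    have hw2 : w.natDegree = 1 := by have := h.degs; omega
    -- `Gi`
    have hg : Gi a b := by
      by_contra hng
      obtain ⟨F, hFd⟩ : ∃ F : Finset ℂ, F = (Sx ∪ Sy ∪ Sw).image (fun r : ℚ => (r : ℂ)) :=
        ⟨_, rfl⟩
      have hcard : F.card = x.natDegree + y.natDegree + w.natDegree := by
        rw [hFd, Finset.card_image_of_injective _ Rat.cast_injective,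
          Finset.card_union_of_disjoint (Finset.disjoint_union_left.2 ⟨dxw, dyw⟩),
          Finset.card_union_of_disjoint dxy, fx.card, fy.card, fw.card]
      have := (hF.2 F (h.bad fx fy fw hFd)).2 hng
      omega
    obtain ⟨m, -, h3, -⟩ := hg
    have h4 := h.dg1
    have h5 := congrArg natDegree hab
    rw [natDegree_mul ha0 hb0, natDegree_mul (mul_ne_zero (C_ne_zero.2 hκ) (pow_ne_zero 2 hs))
      (prod_ne R), natDegree_mul (C_ne_zero.2 hκ) (pow_ne_zero 2 hs), natDegree_C, natDegree_pow,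
      natDegree_prod_of_monic _ _ (fun c _ => monic_X_sub_C c)] at h5
    simp only [natDegree_X_sub_C, Finset.sum_const, smul_eq_mul, mul_one] at h5
    rw [hRcard, ← hn] at h5
    omega
  have q5 : ∃ i j : ℕ, Qv (B / A) (l ^ i * (l - 4) ^ j) := by
    rcases Nat.mod_two_eq_zero_or_one n with hn0 | hn1
    · refine ⟨i₀, j₀, q4.trans ?_⟩
      have := (Qv.even hy0 hn0).mul (Qv.refl (l ^ i₀ * (l - 4) ^ j₀))
      rw [one_mul, ← mul_assoc] at this
      exact this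
    · have hyn := Qv.odd hy0 hn1
      rcases hpar with h3 | h3 | h3 | h3
      · omega
      · refine ⟨i₀, j₀, q4.trans ?_⟩
        have := (hyn.trans h3).mul (Qv.refl (l ^ i₀ * (l - 4) ^ j₀))
        rw [one_mul, ← mul_assoc] at this
        exact this
      · refine ⟨i₀ + 1, j₀, q4.trans ?_⟩
        have := (hyn.trans h3).mul (Qv.refl (l ^ i₀ * (l - 4) ^ j₀))
        rw [← mul_assoc, ← mul_assoc, ← pow_succ'] at this
        exact this
      · refine ⟨i₀, j₀ + 1, q4.trans ?_⟩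
        have := (hyn.trans h3).mul (Qv.refl (l ^ i₀ * (l - 4) ^ j₀))
        rw [← mul_assoc, mul_comm (l - 4), mul_assoc (l ^ i₀), ← pow_succ] at this
        exact this
  obtain ⟨i, j, q5⟩ := q5
  obtain ⟨k, m, hk, hm, q6⟩ := q5.trans ((Qv.red hl0 i).mul (Qv.red hl4 j))
  refine ⟨k, m, i % 2, j % 2, by omega, by omega, hl, hk, hm, ?_, ?_⟩
  · rw [← hA, hlam]
    have h3 : RatFunc.C k * m ^ 2 * l ^ (i % 2) * (l - 4) ^ (j % 2) * l = B / A * l := by
      rw [q6]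
      ring
    rw [h3, hl', div_mul_div_comm, eq_div_iff (mul_ne_zero hA0 hy0)]
    linear_combination hAB
  · rw [← hB, hlam]
    have h3 : (RatFunc.C k * m ^ 2 * l ^ (i % 2) * (l - 4) ^ (j % 2)) ^ 2 * l =
        (B / A) ^ 2 * l := by
      rw [q6]
      ring
    rw [h3, hl', div_pow, div_mul_div_comm, eq_div_iff (mul_ne_zero (pow_ne_zero 2 hA0) hy0)]
    linear_combination B * hAB

end

end Pool.Agent.G02.H53
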